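import Mathlib
import Pool.Agent.H906R3.YM.Conc
import Pool.Agent.TH618.YM.Cartan
import Pool.Agent.U322.FL.Law

/-!
# Lattice Yang-Mills theory: a continuum limit in the infinite volume

Wilson's lattice gauge theory on `ℤ^d`, `d ≥ 3`, with gauge group an arbitrary closed subgroup `G`
of `U(N)` at the inverse coupling `β`, in the infinite volume. Let the lattice spacing `h` tend to
zero and `β ≥ h ^ (-(60 d + 85))`. The components of the plaquette variables, transported to the
origin along arbitrary lattice paths of length at most `c (1 + |x|)`, rescaled by the canonical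
factor `β ^ (1/2) h ^ (-d/2)` and smeared with smooth antisymmetric test forms of compact support,
converge jointly in law, for every choice of the infinite volume limits, to the free Maxwell field
on `ℝ^d` with values in the Lie algebra of `G`: the Gaussian field `F` with `dF = 0` and covariance
`E F(f) F(g) = ∑_k ∫ conj (∑_j p_j f^_jk(p)) (∑_j p_j g^_jk(p)) / |p|^2 dp`.
-/

open MeasureTheory Matrix Filter
open scoped Matrix.Norms.Frobenius Topology ContDiff ComplexConjugate FourierTransform

namespace Pool.Agent.Results.MP_7f377f_mp.FreeContinuumLimit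

set_option linter.unusedSectionVars false

noncomputable section

/-- Complex `N × N` matrices. -/
abbrev Mt (N : ℕ) := Matrix (Fin N) (Fin N) ℂ

/-- The unitary group `U(N)`. -/
abbrev UU (N : ℕ) := Matrix.unitaryGroup (Fin N) ℂ

/-- The matrix of an element of a subgroup of `U(N)`. -/
def mt {N : ℕ} {G : Subgroup (UU N)} (g : G) : Mt N := ((g : UU N) : Mt N)

/-- An orthonormal basis `X_1, …, X_n` of the Lie algebra of `G` (the matrices `Y` with
`exp (t Y) ∈ G` for all real `t`) with the scalar product `Re tr (Xᴴ Y)`. -/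
structure LieBasis {N : ℕ} (G : Subgroup (UU N)) (n : ℕ) where
  X : Fin n → Mt N
  mem : ∀ (a : Fin n) (t : ℝ), ∃ g : G, mt g = NormedSpace.exp (t • X a)
  orth : ∀ a b, (trace ((X a)ᴴ * X b)).re = if a = b then 1 else 0
  full : ∀ Y : Mt N, (∀ t : ℝ, ∃ g : G, mt g = NormedSpace.exp (t • Y)) →
    Y ∈ Submodule.span ℝ (Set.range X)

/-- Links of the periodic lattice `(ℤ/l)^d`: base point and direction. -/
abbrev Link (d l : ℕ) := (Fin d → ZMod l) × Fin d

/-- Links of the lattice `ℤ^d`: base point and direction. -/
abbrev LinkZ (d : ℕ) := (Fin d → ℤ) × Fin d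

section

variable {N n d l : ℕ} {G : Subgroup (UU N)}

/-- The product of the link variables around the plaquette at `x` in the directions `i`, `j` of the
periodic lattice. -/
def plaq (U : Link d l → G) (x : Fin d → ZMod l) (i j : Fin d) : G :=
  U (x, i) * U (x + Pi.single i 1, j) * (U (x + Pi.single j 1, i))⁻¹ * (U (x, j))⁻¹

/-- The Wilson action `∑_p Re tr (1 - U_p)`, the sum over the plaquettes. -/
def action [NeZero l] (U : Link d l → G) : ℝ :=
  ∑ x : Fin d → ZMod l, ∑ i : Fin d, ∑ j : Fin d,
    if i < j then (trace (1 - mt (plaq U x i j))).re else 0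

/-- The periodic extension of a configuration. -/
def per (U : Link d l → G) : LinkZ d → G := fun e => U (fun i => (e.1 i : ZMod l), e.2)

/-- The expectation of `F` in the lattice Yang-Mills theory on `(ℤ/l)^d`, `μ` being the Haar
measure. -/
def expect (l : ℕ) [NeZero l] [MeasurableSpace G] (μ : Measure G) (β : ℝ)
    (F : (LinkZ d → G) → ℝ) : ℝ :=
  (∫ U : Link d l → G, F (per U) * Real.exp (-(β * action U)) ∂(Measure.pi fun _ => μ)) /
    ∫ U : Link d l → G, Real.exp (-(β * action U)) ∂(Measure.pi fun _ => μ)

/-- `ν` is an infinite volume limit (weak limit along a subsequence) of the theories on the tori of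
even side at inverse coupling `β`. -/
structure IsInfVol [MeasurableSpace G] (μ : Measure G) (β : ℝ)
    (ν : Measure (LinkZ d → G)) : Prop where
  prob : IsProbabilityMeasure ν
  lim : ∃ s : ℕ → ℕ, Tendsto s atTop atTop ∧ ∀ F : (LinkZ d → G) → ℝ, Continuous F →
    Tendsto (fun j => expect (2 * (s j + 1)) μ β F) atTop (𝓝 (∫ V, F V ∂ν))

/-- The product of the link variables along a lattice path from `x`: the step `(i, true)` goes from
`y` to `y + e_i` and the step `(i, false)` from `y` to `y - e_i`. -/
def transport (V : LinkZ d → G) : (Fin d → ℤ) → List (Fin d × Bool) → G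
  | _, [] => 1
  | x, (i, true) :: p => V (x, i) * transport V (x + Pi.single i 1) p
  | x, (i, false) :: p => (V (x - Pi.single i 1, i))⁻¹ * transport V (x - Pi.single i 1) p

/-- The end point of a lattice path from `x`. -/
def endpoint {d : ℕ} : (Fin d → ℤ) → List (Fin d × Bool) → (Fin d → ℤ)
  | x, [] => x
  | x, (i, true) :: p => endpoint (x + Pi.single i 1) p
  | x, (i, false) :: p => endpoint (x - Pi.single i 1) p

/-- The product of the link variables around the plaquette at `x` in the directions `i`, `j`. -/
def plaqZ (V : LinkZ d → G) (x : Fin d → ℤ) (i j : Fin d) : G :=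
  V (x, i) * V (x + Pi.single i 1, j) * (V (x + Pi.single j 1, i))⁻¹ * (V (x, j))⁻¹

/-- The component `a` of the lattice field strength at `x` in the directions `i`, `j`, transported
to the origin along the path `P x` from `0` to `x`. -/
def strength (B : LieBasis G n) (P : (Fin d → ℤ) → List (Fin d × Bool)) (V : LinkZ d → G)
    (a : Fin n) (i j : Fin d) (x : Fin d → ℤ) : ℝ :=
  (trace ((B.X a)ᴴ * mt (transport V 0 (P x) * plaqZ V x i j * (transport V 0 (P x))⁻¹))).re

/-- Test forms: `n` antisymmetric families `f^a_ij` of smooth functions of compact support. -/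
structure TestForm (n d : ℕ) where
  f : Fin n → Fin d → Fin d → EuclideanSpace ℝ (Fin d) → ℝ
  smooth : ∀ a i j, ContDiff ℝ ∞ (f a i j)
  compact : ∀ a i j, HasCompactSupport (f a i j)
  anti : ∀ a i j x, f a i j x = -f a j i x

/-- The smeared field strength of the lattice theory with the lattice spacing `h`:
`h^d ∑_x ∑_(i<j) ∑_a f^a_ij(h x) β^(1/2) h^(-d/2) F^a_ij(x)`. -/
def smeared (B : LieBasis G n) (β h : ℝ) (P : (Fin d → ℤ) → List (Fin d × Bool))
    (f : TestForm n d) (V : LinkZ d → G) : ℝ :=
  h ^ d * ∑' x : Fin d → ℤ, ∑ i, ∑ j, if i < j then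
    ∑ a, f.f a i j (WithLp.toLp 2 fun k => h * (x k : ℝ)) *
      (Real.sqrt β / Real.sqrt (h ^ d) * strength B P V a i j x) else 0

/-- The form `∑_j p_j f^_jk(p)`, where `f^` is the Fourier transform. -/
def divForm (f : TestForm n d) (a : Fin n) (k : Fin d) (p : EuclideanSpace ℝ (Fin d)) : ℂ :=
  ∑ j, (p j : ℂ) * 𝓕 (fun x => (f.f a j k x : ℂ)) p

/-- The covariance of the free Maxwell field on `ℝ^d` with values in `ℝ^n`. -/
def maxwell (f g : TestForm n d) : ℝ :=
  ∫ p : EuclideanSpace ℝ (Fin d),
    (∑ a, ∑ k, (conj (divForm f a k p) * divForm g a k p).re) / ‖p‖ ^ 2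

end

open Pool.Agent.H906R3 Pool.Agent.W793 Pool.Agent.TH618 Pool.Agent.U322

variable {N n d l m : ℕ} {G : Subgroup (UU N)}

/-- A Haar probability measure is invariant under right multiplications. -/
lemma right_inv {H : Type*} [Group H] [TopologicalSpace H] [IsTopologicalGroup H]
    [CompactSpace H] [MeasurableSpace H] [BorelSpace H] (μ : Measure H)
    [IsProbabilityMeasure μ] [μ.IsHaarMeasure] : μ.IsMulRightInvariant := by
  refine ⟨fun g => ?_⟩
  have h1 : IsProbabilityMeasure (Measure.map (fun x => x * g) μ) :=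
    Measure.isProbabilityMeasure_map (measurable_mul_const g).aemeasurable
  exact Measure.isHaarMeasure_eq_of_isProbabilityMeasure _ _

/-- A Haar probability measure is invariant under the inversion. -/
lemma inv_inv' {H : Type*} [Group H] [TopologicalSpace H] [IsTopologicalGroup H]
    [CompactSpace H] [MeasurableSpace H] [BorelSpace H] (μ : Measure H)
    [IsProbabilityMeasure μ] [μ.IsHaarMeasure] : μ.IsInvInvariant := by
  have hr := right_inv μ
  refine ⟨?_⟩
  have h1 : IsProbabilityMeasure μ.inv :=
    Measure.isProbabilityMeasure_map measurable_inv.aemeasurable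
  have h2 : μ.inv.IsMulLeftInvariant := inferInstance
  have h3 : μ.inv.IsHaarMeasure :=
    Measure.isHaarMeasure_of_isCompact_nonempty_interior μ.inv Set.univ isCompact_univ
      (by simp) (by simp) (by simp)
  exact Measure.isHaarMeasure_eq_of_isProbabilityMeasure _ _

/-- the frame of a basis of the Lie algebra -/
def fr (B : LieBasis G n) : YM.Frame G n where
  X := B.X
  ex a t := (B.mem a t).choose
  ex_eq a t := (B.mem a t).choose_spec
  orth := B.orth
  full := B.full

lemma transport_eq (V : LinkZ d → G) (x : Fin d → ℤ) (p : List (Fin d × Bool)) :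
    transport V x p = YM.hol V x p := by
  induction p generalizing x with
  | nil => rfl
  | cons s p ih =>
    obtain ⟨i, s⟩ := s
    cases s with
    | true => simp only [transport, YM.hol, ih]
    | false => simp only [transport, YM.hol, ih]

lemma endpoint_eq (x : Fin d → ℤ) (p : List (Fin d × Bool)) :
    endpoint x p = YM.dest x p := by
  induction p generalizing x with
  | nil => rfl
  | cons s p ih =>
    obtain ⟨i, s⟩ := s
    cases s with
    | true => simp only [endpoint, YM.dest, ih]
    | false => simp only [endpoint, YM.dest, ih]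

/-- the opposite test form -/
def ngt (f : TestForm n d) : FL.TestForm n d where
  f a j k x := -f.f a j k x
  smooth a j k := (f.smooth a j k).neg
  compact a j k := (f.compact a j k).neg
  anti a j k x := by rw [f.anti a j k]

lemma strength_eq (B : LieBasis G n) (P : (Fin d → ℤ) → List (Fin d × Bool)) (V : LinkZ d → G)
    (a : Fin n) (i j : Fin d) (x : Fin d → ℤ) :
    strength B P V a i j x = -FL.fst (fr B).toLD V P a i j x := by
  unfold strength FL.fst YM.fi
  rw [YM.trX_apply, transport_eq]
  have h1 : (B.X a)ᴴ = -B.X a := (fr B).skewX a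
  rw [h1, Matrix.neg_mul, Matrix.trace_neg, Complex.neg_re]
  rfl

lemma half_sum (w : Fin d → Fin d → ℝ) (hs : ∀ j k, w j k = w k j) (h0 : ∀ j, w j j = 0) :
    1 / 2 * ∑ j, ∑ k, w j k = ∑ j, ∑ k, if j < k then w j k else 0 := by
  have h1 : ∑ j, ∑ k, w j k = (∑ j, ∑ k, if j < k then w j k else 0) +
      ∑ j, ∑ k, if k < j then w j k else 0 := by
    rw [← Finset.sum_add_distrib]
    refine Finset.sum_congr rfl fun j _ => ?_
    rw [← Finset.sum_add_distrib]
    refine Finset.sum_congr rfl fun k _ => ?_
    rcases lt_trichotomy j k with h | h | h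
    · rw [if_pos h, if_neg h.not_gt, add_zero]
    · subst h; rw [h0, if_neg (lt_irrefl _), add_zero]
    · rw [if_neg h.not_gt, if_pos h, zero_add]
  have h2 : (∑ j, ∑ k, if k < j then w j k else 0) = ∑ j, ∑ k, if j < k then w j k else 0 := by
    rw [Finset.sum_comm]
    refine Finset.sum_congr rfl fun j _ => Finset.sum_congr rfl fun k _ => ?_
    rw [hs]
  rw [h1, h2]
  ring

lemma maxwell_eq (f g : TestForm n d) : maxwell f g = FL.cvM (ngt f) (ngt g) := by
  unfold maxwell FL.cvM
  have h1 : ∀ (f : TestForm n d) (a : Fin n) (k : Fin d) (p : EuclideanSpace ℝ (Fin d)),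
      FL.dv1 (ngt f) a k p = -divForm f a k p := by
    intro f a k p
    unfold FL.dv1 divForm
    rw [← Finset.sum_neg_distrib]
    refine Finset.sum_congr rfl fun j _ => ?_
    have e1 : FL.FT ((ngt f).f a j k) p = -𝓕 (fun x => (f.f a j k x : ℂ)) p := FL.FT_neg p
    rw [e1]
    ring
  simp only [h1, map_neg, neg_mul_neg]

section bridge

variable [CompactSpace G] [SecondCountableTopology G] [MeasurableSpace G] [BorelSpace G]
  (μ : Measure G) [IsProbabilityMeasure μ] [μ.IsHaarMeasure] (B : YM.Frame G n)

lemma fst_anti (B : LieBasis G n) (P : (Fin d → ℤ) → List (Fin d × Bool)) (V : LinkZ d → G)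
    (a : Fin n) (i j : Fin d) (x : Fin d → ℤ) :
    FL.fst (fr B).toLD V P a i j x = -FL.fst (fr B).toLD V P a j i x := by
  unfold FL.fst
  have h1 : YM.hol V 0 (P x) * FL.plz V x i j * (YM.hol V 0 (P x))⁻¹ =
      (YM.hol V 0 (P x) * FL.plz V x j i * (YM.hol V 0 (P x))⁻¹)⁻¹ := by
    unfold FL.plz
    group
  rw [h1, YM.fi_inv]

lemma smeared_eq (B : LieBasis G n) (β h : ℝ) (P : (Fin d → ℤ) → List (Fin d × Bool))
    (f : TestForm n d) (V : LinkZ d → G) :
    smeared B β h P f V = FL.Phi (fr B).toLD β h P (ngt f) V := by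
  unfold smeared FL.Phi
  congr 1
  refine tsum_congr fun x => ?_
  rw [half_sum]
  · refine Finset.sum_congr rfl fun i _ => Finset.sum_congr rfl fun j _ => ?_
    split_ifs
    · refine Finset.sum_congr rfl fun a _ => ?_
      rw [strength_eq]
      show f.f a i j _ * _ = -f.f a i j _ * _
      have e : (WithLp.toLp 2 fun k => h * (x k : ℝ) : EuclideanSpace ℝ (Fin d)) = FL.pt h x := rfl
      rw [e]
      ring
    · rfl
  · intro j k
    refine Finset.sum_congr rfl fun a _ => ?_
    rw [fst_anti, (ngt f).anti a j k]
    ring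
  · intro j
    refine Finset.sum_eq_zero fun a _ => ?_
    have h1 := (ngt f).anti a j j (FL.pt h x)
    have h2 : (ngt f).f a j j (FL.pt h x) = 0 := by linarith
    rw [h2, zero_mul]

lemma expect_eq [NeZero l] (β : ℝ) (F : (LinkZ d → G) → ℝ) : expect l μ β F =
    YM.EX μ B.toLD β (fun U : YM.Ed d l → G => F (YM.lf U)) := by
  unfold expect YM.EX YM.Zt
  simp only [one_mul]
  rfl

include B in
lemma action_cont [NeZero l] : Continuous (action : (Link d l → G) → ℝ) :=
  YM.act_cont (L := B.toLD)

include B in
/-- existence of infinite volume limits -/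
lemma exists_infVol (β : ℝ) : ∃ ν : Measure (LinkZ d → G), IsInfVol μ β ν := by
  have hP : ∀ j : ℕ, ∃ P : ProbabilityMeasure (LinkZ d → G),
      ∀ F : (LinkZ d → G) → ℝ, Continuous F →
        ∫ V, F V ∂(P : Measure (LinkZ d → G)) = expect (2 * (j + 1)) μ β F := by
    intro j
    have hper : Continuous (per : (Link d (2 * (j + 1)) → G) → LinkZ d → G) :=
      continuous_pi fun e => continuous_apply _
    have hexp : Continuous fun U : Link d (2 * (j + 1)) → G =>
        Real.exp (-(β * action U)) :=
      Real.continuous_exp.comp (continuous_const.mul (action_cont B)).neg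
    have hint : Integrable (fun U : Link d (2 * (j + 1)) → G =>
        Real.exp (-(β * action U))) (Measure.pi fun _ => μ) :=
      hexp.integrable_of_hasCompactSupport (HasCompactSupport.of_compactSpace _)
    have h1 := isProbabilityMeasure_tilted (f := fun U : Link d (2 * (j + 1)) → G =>
      -(β * action U)) hint
    refine ⟨⟨((Measure.pi fun _ => μ).tilted fun U : Link d (2 * (j + 1)) → G =>
      -(β * action U)).map per, Measure.isProbabilityMeasure_map hper.aemeasurable⟩,
      fun F hF => ?_⟩
    show ∫ V, F V ∂(((Measure.pi fun _ => μ).tilted fun U : Link d (2 * (j + 1)) → G =>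
      -(β * action U)).map per) = _
    rw [integral_map hper.aemeasurable hF.aestronglyMeasurable, integral_tilted]
    unfold expect
    rw [← integral_div]
    refine integral_congr_ae (Filter.Eventually.of_forall fun U => ?_)
    simp only [smul_eq_mul]
    ring
  choose P hP using hP
  obtain ⟨ν, s, hs, hlim⟩ := CompactSpace.tendsto_subseq P
  refine ⟨ν, ⟨inferInstance, s, hs.tendsto_atTop, fun F hF => ?_⟩⟩
  have h1 := (ProbabilityMeasure.tendsto_iff_forall_integral_tendsto.1 hlim)
    (BoundedContinuousFunction.mkOfCompact ⟨F, hF⟩)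
  simp only [Function.comp_apply, BoundedContinuousFunction.mkOfCompact_apply,
    ContinuousMap.coe_mk] at h1
  simpa only [hP _ F hF] using h1

end bridge

theorem result {N d : ℕ} (hd : 3 ≤ d) (G : Subgroup (UU N)) (hG : IsClosed (G : Set (UU N)))
    [MeasurableSpace G] [BorelSpace G] (μ : Measure G) [IsProbabilityMeasure μ]
    [μ.IsHaarMeasure] :
    (∃ n : ℕ, Nonempty (LieBasis G n)) ∧
    (∀ β : ℝ, ∃ ν : Measure (LinkZ d → G), IsInfVol μ β ν) ∧
    ∀ (n : ℕ) (B : LieBasis G n) (c : ℝ) (β h : ℕ → ℝ)
      (P : ℕ → (Fin d → ℤ) → List (Fin d × Bool)) (ν : ℕ → Measure (LinkZ d → G)),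
      (∀ k, 0 < h k) → Tendsto h atTop (𝓝 0) →
      (∀ᶠ k in atTop, 1 ≤ β k * h k ^ (60 * d + 85)) →
      (∀ k x, endpoint 0 (P k x) = x ∧ ((P k x).length : ℝ) ≤ c * (1 + ∑ i, |(x i : ℝ)|)) →
      (∀ k, IsInfVol μ (β k) (ν k)) →
      ∀ (m : ℕ) (f : Fin m → TestForm n d),
        (Matrix.of fun s s' => maxwell (f s) (f s')).PosSemidef ∧
        ∀ g : BoundedContinuousFunction (EuclideanSpace ℝ (Fin m)) ℝ,
          Tendsto (fun k => ∫ V, g (WithLp.toLp 2 fun s =>
              smeared B (β k) (h k) (P k) (f s) V) ∂(ν k)) atTop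
            (𝓝 (∫ y, g y ∂(ProbabilityTheory.multivariateGaussian 0
              (Matrix.of fun s s' => maxwell (f s) (f s'))))) := by
  have : CompactSpace G := by
    have h1 : IsCompact (G : Set (UU N)) := hG.isCompact
    exact isCompact_iff_compactSpace.1 h1
  have h00 : SecondCountableTopology (UU N) := TopologicalSpace.Subtype.secondCountableTopology _
  have : SecondCountableTopology G := TopologicalSpace.Subtype.secondCountableTopology _
  have := right_inv μ
  have := inv_inv' μ
  obtain ⟨n₀, ⟨B₀⟩⟩ := YM.exists_frame hG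
  refine ⟨⟨n₀, ⟨⟨B₀.X, fun a t => ⟨B₀.ex a t, B₀.ex_eq a t⟩, B₀.orth, B₀.full⟩⟩⟩,
    exists_infVol μ B₀, ?_⟩
  intro n B c β h P ν hh hlim hweak hpath hν m f
  have hM : (Matrix.of fun s s' => maxwell (f s) (f s')) = FL.cM fun s => ngt (f s) := by
    ext s s'
    exact maxwell_eq _ _
  rw [hM]
  refine ⟨FL.cM_psd _, fun g => ?_⟩
  have S : FL.Sq μ (fr B).toLD c β h P ν :=
    { pos := hh
      lim := hlim
      weak := hweak
      path := fun k x => by
        have := hpath k x
        rwa [endpoint_eq] at this
      prob := fun k => (hν k).prob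
      inf := fun k => by
        obtain ⟨s, hs, h1⟩ := (hν k).lim
        refine ⟨s, hs, fun F hF => ?_⟩
        refine (h1 F hF).congr fun j => ?_
        rw [expect_eq μ (fr B)] }
  have h1 := S.law hd (fun s => ngt (f s)) g
  refine h1.congr fun k => ?_
  refine integral_congr_ae (Eventually.of_forall fun V => ?_)
  simp only
  congr 1
  unfold FL.vec
  congr 1
  funext s
  rw [smeared_eq]

end

end Pool.Agent.Results.MP_7f377f_mp.FreeContinuumLimit
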