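import Mathlib
import Pool.Agent.U868.YM.Lim

/-!
# Lattice Yang-Mills theory: a mass gap at arbitrary coupling in a matching of the planes

Pure lattice gauge theory on `ℤ^d` with an arbitrary compact (second countable) gauge group `G`: the
weight of the plaquette `p` is `exp (φ_p (U_p))`, `U_p` being the holonomy around `p`; for Wilson's
action `φ_p(U) = β_p Re tr U`. An involution `σ` of the directions singles out the planes `{i, σ i}`,
which are pairwise disjoint as pairs of directions (in four dimensions for instance the two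
complementary planes `{1, 2}` and `{3, 4}`). For every `m > 0` there is an `ε > 0`, which depends
only on `d` and `m`, such that, when the potentials of the plaquettes in all the other planes are at
most `ε`, the potentials in the planes `{i, σ i}` being completely arbitrary (arbitrarily weak bare
gauge coupling, arbitrary inhomogeneity), the truncated correlations of all local observables decay
exponentially with the rate `m`, uniformly in the volume, in the gauge group and in the arbitrary
potentials; the infinite volume state exists and is unique; and when the potentials do not depend on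
one of the coordinates, called time, and are class functions invariant under the inversion, the
transfer matrix in this direction has a spectral gap of at least `m` above the vacuum: `|Cov(F,
F_t)| ≤ exp (-m t) Var F` for all local observables `F` at time `0` and all times `t`.
-/

open MeasureTheory Filter Topology

namespace Pool.Agent.Results.MP_7f377f_mp.MatchedPlanesMassGap

set_option linter.unusedSectionVars false

noncomputable section

/-- Sites of the lattice `ℤ^d`; their distance `dist` is the maximum norm of the difference. -/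
abbrev Site (d : ℕ) := Fin d → ℤ

/-- Links: base point `x` and direction `i`, the link from `x` to `x + e_i`. -/
abbrev Link (d : ℕ) := Site d × Fin d

/-- Plaquettes: base point and two directions. -/
abbrev Plaq (d : ℕ) := Site d × Fin d × Fin d

variable {d : ℕ} {G : Type*} [Group G]

/-- The product of the link variables around the plaquette `(x, i, j)`. -/
def hol (U : Link d → G) (p : Plaq d) : G :=
  U (p.1, p.2.1) * U (p.1 + Pi.single p.2.1 1, p.2.2) *
    (U (p.1 + Pi.single p.2.2 1, p.2.1))⁻¹ * (U (p.1, p.2.2))⁻¹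

/-- The sum of the potentials over the plaquettes `(x, i, j)`, `i < j`, of the finite set `Λ`. -/
def potential (φ : Plaq d → G → ℝ) (Λ : Finset (Plaq d)) (U : Link d → G) : ℝ :=
  ∑ p ∈ Λ, if p.2.1 < p.2.2 then φ p (hol U p) else 0

/-- The expectation of `F` in the lattice gauge theory in the finite volume `Λ` (a finite set of
plaquettes, free boundary conditions): the density `exp (potential)` with respect to the product of
the Haar measure `μ` over the links. -/
def expect [MeasurableSpace G] (μ : Measure G) (φ : Plaq d → G → ℝ) (Λ : Finset (Plaq d))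
    (F : (Link d → G) → ℝ) : ℝ :=
  (∫ U, F U * Real.exp (potential φ Λ U) ∂(Measure.infinitePi fun _ : Link d => μ)) /
    ∫ U, Real.exp (potential φ Λ U) ∂(Measure.infinitePi fun _ : Link d => μ)

/-- `F` is an observable of the links based in `A`. -/
def Obs (A : Finset (Site d)) (F : (Link d → G) → ℝ) : Prop := DependsOn F {e | e.1 ∈ A}

/-- `ν` is the infinite volume limit of the theory: the limit of the expectations of all local
continuous observables as the volume `Λ` increases to the whole lattice in an arbitrary way. -/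
structure IsInfVol [TopologicalSpace G] [MeasurableSpace G] (μ : Measure G) (φ : Plaq d → G → ℝ)
    (ν : Measure (Link d → G)) : Prop where
  prob : IsProbabilityMeasure ν
  lim : ∀ (A : Finset (Site d)) (F : (Link d → G) → ℝ), Continuous F → Obs A F →
    Tendsto (fun Λ : Finset (Plaq d) => expect μ φ Λ F) atTop (𝓝 (∫ U, F U ∂ν))

/-- The configuration shifted by `t` units in the direction `k`. -/
def shift (k : Fin d) (t : ℕ) (U : Link d → G) : Link d → G :=
  fun e => U (e.1 + Pi.single k (t : ℤ), e.2)

/-- The potentials do not depend on the coordinate `k` of the plaquette, and they are class functions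
which are invariant under the inversion. -/
structure TimeSymmetric (k : Fin d) (φ : Plaq d → G → ℝ) : Prop where
  time : ∀ (x y : Site d) (i j : Fin d), (∀ l, l ≠ k → x l = y l) → φ (x, i, j) = φ (y, i, j)
  inv : ∀ p g, φ p g⁻¹ = φ p g
  conj : ∀ p g h, φ p (h * g * h⁻¹) = φ p g

/-- The covariance of `F` and of its translate by `t` units in the direction `k` in the state `ν`. -/
def cov [MeasurableSpace G] (ν : Measure (Link d → G)) (k : Fin d) (F : (Link d → G) → ℝ)
    (t : ℕ) : ℝ :=
  ∫ U, F U * F (shift k t U) ∂ν - (∫ U, F U ∂ν) * ∫ U, F (shift k t U) ∂ν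

open Pool.Agent.U868

section bridge

lemma expect_eq [MeasurableSpace G] (μ : Measure G) (φ : Plaq d → G → ℝ) (Λ : Finset (Plaq d))
    (F : (Link d → G) → ℝ) : expect μ φ Λ F = YM.ex μ φ Λ F := by
  unfold expect YM.ex YM.zz
  simp only [one_mul]
  rfl

lemma obs_iff (A : Finset (Site d)) (F : (Link d → G) → ℝ) : Obs A F ↔ YM.DepOn A F := by
  constructor
  · intro h U U' hU
    exact h fun l hl => hU l hl
  · intro h U U' hU
    exact h U U' fun l hl => hU l hl

lemma shift_eq (k : Fin d) (t : ℕ) (U : Link d → G) :
    shift k t U = YM.shv ((t : ℤ) • YM.ev k) U := by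
  funext e
  unfold shift YM.shv
  congr 2
  congr 1
  funext j
  unfold YM.ev
  by_cases h : j = k
  · subst h
    simp
  · simp [h]

lemma near_dist {N : ℕ} {x y : Site d} (h : YM.near N x y) : dist x y ≤ N := by
  rw [dist_pi_le_iff (Nat.cast_nonneg N)]
  intro i
  rw [Int.dist_eq]
  exact_mod_cast h i

end bridge

section

variable [TopologicalSpace G] [IsTopologicalGroup G] [CompactSpace G]
  [T2Space G] [SecondCountableTopology G] [MeasurableSpace G] [BorelSpace G]
  (μ : Measure G) [IsProbabilityMeasure μ]

/-- A Haar probability measure is invariant under right multiplications. -/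
lemma right_inv [μ.IsHaarMeasure] : μ.IsMulRightInvariant := by
  refine ⟨fun g => ?_⟩
  have h1 : IsProbabilityMeasure (Measure.map (fun x => x * g) μ) :=
    Measure.isProbabilityMeasure_map (measurable_mul_const g).aemeasurable
  exact Measure.isHaarMeasure_eq_of_isProbabilityMeasure _ _

/-- A Haar probability measure is invariant under the inversion. -/
lemma inv_inv' [μ.IsHaarMeasure] : μ.IsInvInvariant := by
  have hr := right_inv μ
  refine ⟨?_⟩
  have h1 : IsProbabilityMeasure μ.inv :=
    Measure.isProbabilityMeasure_map measurable_inv.aemeasurable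
  have h2 : μ.inv.IsMulLeftInvariant := inferInstance
  have h3 : μ.inv.IsHaarMeasure :=
    Measure.isHaarMeasure_of_isCompact_nonempty_interior μ.inv Set.univ isCompact_univ
      (by simp) (by simp) (by simp)
  exact Measure.isHaarMeasure_eq_of_isProbabilityMeasure _ _

lemma isLim_of {φ : Plaq d → G → ℝ} {ν : Measure (Link d → G)} (h : IsInfVol μ φ ν) :
    YM.IsLim μ φ ν where
  prob := h.prob
  lim R F hc hF := by
    have := h.lim (YM.nb R 0) F hc ((obs_iff _ _).2 hF)
    simpa only [expect_eq] using this

lemma infVol_of {φ : Plaq d → G → ℝ} {ν : Measure (Link d → G)}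
    [μ.IsMulLeftInvariant] [μ.IsMulRightInvariant] [μ.IsInvInvariant] (h : YM.IsLim μ φ ν) :
    IsInfVol μ φ ν where
  prob := h.prob
  lim A F hc hF := by
    have := h.lim' μ hc ((obs_iff _ _).1 hF)
    simpa only [expect_eq] using this

/-- The infinite volume limit is unique. -/
lemma unique_infVol {φ : Plaq d → G → ℝ} {ν ν' : Measure (Link d → G)} (h : IsInfVol μ φ ν)
    (h' : IsInfVol μ φ ν') : ν = ν' := by
  have hp := h.prob
  have hp' := h'.prob
  have key : ∀ J : Finset (Link d), ν.map J.restrict = ν'.map J.restrict := by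
    intro J
    have i1 : IsProbabilityMeasure (ν.map J.restrict) :=
      Measure.isProbabilityMeasure_map (Finset.measurable_restrict J).aemeasurable
    have i2 : IsProbabilityMeasure (ν'.map J.restrict) :=
      Measure.isProbabilityMeasure_map (Finset.measurable_restrict J).aemeasurable
    refine ext_of_forall_integral_eq_of_IsFiniteMeasure fun f => ?_
    rw [integral_map (Finset.measurable_restrict J).aemeasurable
        f.continuous.aestronglyMeasurable,
      integral_map (Finset.measurable_restrict J).aemeasurable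
        f.continuous.aestronglyMeasurable]
    have hc : Continuous fun U : Link d → G => f (J.restrict U) :=
      f.continuous.comp (continuous_pi fun _ => continuous_apply _)
    have hd : Obs (J.image Prod.fst) fun U : Link d → G => f (J.restrict U) := by
      intro U U' hU
      simp only
      congr 1
      funext l
      exact hU l.1 (Finset.mem_image_of_mem _ l.2)
    exact tendsto_nhds_unique (h.lim _ _ hc hd) (h'.lim _ _ hc hd)
  have hP : ∀ J : Finset (Link d), IsFiniteMeasure (ν.map J.restrict) := fun J =>
    Measure.isFiniteMeasure_map _ _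
  exact IsProjectiveLimit.unique (P := fun J : Finset (Link d) => ν.map J.restrict)
    (fun J => rfl) (fun J => (key J).symm)

end

/-- **Mass gap of lattice Yang-Mills theory at arbitrary coupling in a matching of the planes.** -/
theorem result (d : ℕ) (m : ℝ) (hm : 0 < m) : ∃ ε : ℝ, 0 < ε ∧ ∃ K : ℕ → ℝ,
    ∀ (G : Type) [Group G] [TopologicalSpace G] [IsTopologicalGroup G] [CompactSpace G]
      [T2Space G] [SecondCountableTopology G] [MeasurableSpace G] [BorelSpace G]
      (μ : Measure G) [IsProbabilityMeasure μ] [μ.IsHaarMeasure]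
      (σ : Fin d → Fin d) (φ : Plaq d → G → ℝ),
      (∀ i, σ (σ i) = i) → (∀ p, Continuous (φ p)) →
      (∀ (x : Site d) (i j : Fin d), i < j → j ≠ σ i → ∀ g, |φ (x, i, j) g| ≤ ε) →
      (∀ (Λ : Finset (Plaq d)) (A A' : Finset (Site d)) (F F' : (Link d → G) → ℝ) (r : ℝ),
        Measurable F → Measurable F' → Obs A F → Obs A' F' → (∀ U, |F U| ≤ 1) →
        (∀ U, |F' U| ≤ 1) → (∀ x ∈ A, ∀ y ∈ A', r ≤ dist x y) →
        |expect μ φ Λ (fun U => F U * F' U) - expect μ φ Λ F * expect μ φ Λ F'| ≤
          K (A.card + A'.card) * Real.exp (-(m * r))) ∧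
      ((∃ b : ℝ, ∀ p g, |φ p g| ≤ b) → ∃ ν : Measure (Link d → G),
        IsInfVol μ φ ν ∧ (∀ ν', IsInfVol μ φ ν' → ν' = ν) ∧
        (∀ (A A' : Finset (Site d)) (F F' : (Link d → G) → ℝ) (r : ℝ),
          Continuous F → Continuous F' → Obs A F → Obs A' F' → (∀ U, |F U| ≤ 1) →
          (∀ U, |F' U| ≤ 1) → (∀ x ∈ A, ∀ y ∈ A', r ≤ dist x y) →
          |∫ U, F U * F' U ∂ν - (∫ U, F U ∂ν) * ∫ U, F' U ∂ν| ≤
            K (A.card + A'.card) * Real.exp (-(m * r))) ∧
        ∀ k : Fin d, TimeSymmetric k φ → ∀ (A : Finset (Site d)) (F : (Link d → G) → ℝ),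
          Continuous F → Obs A F → DependsOn F {e : Link d | e.1 k = 0 ∧ e.2 ≠ k} →
          ∀ t : ℕ, |cov ν k F t| ≤ Real.exp (-(m * t)) * cov ν k F 0) := by
  refine ⟨YM.epsm d m, YM.epsm_pos d m, fun n => 4 * n / YM.qm d m ^ (19 * n), ?_⟩
  intro G _ _ _ _ _ _ _ _ μ _ _ σ φ hσ hφ hweak
  have i1 := right_inv μ
  have i2 := inv_inv' μ
  have hadm : YM.Adm σ φ m := ⟨hσ, hm, fun p => YM.cont_bm (hφ p), by
    rintro ⟨x, i, j⟩ hij hj g
    exact hweak x i j hij hj g⟩
  have hq := YM.qm_pos d m
  have hq1 := YM.qm_one (d := d) hm.le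
  -- comparison of the constants
  have hconst : ∀ (A A' : Finset (Site d)) (r : ℝ), (A.Nonempty → A'.Nonempty → r ≤ (⌈r⌉₊ : ℝ)) →
      4 * 1 * 1 * (A.card : ℝ) / YM.qm d m ^ (19 * (A ∪ A').card) * Real.exp (-(m * (⌈r⌉₊ : ℕ))) ≤
      4 * ((A.card + A'.card : ℕ) : ℝ) / YM.qm d m ^ (19 * (A.card + A'.card)) *
        Real.exp (-(m * r)) := by
    intro A A' r _
    have h1 : Real.exp (-(m * (⌈r⌉₊ : ℕ))) ≤ Real.exp (-(m * r)) := by
      rw [Real.exp_le_exp]
      have := Nat.le_ceil r
      nlinarith
    refine mul_le_mul ?_ h1 (Real.exp_pos _).le (by positivity)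
    have h2 : YM.qm d m ^ (19 * (A.card + A'.card)) ≤ YM.qm d m ^ (19 * (A ∪ A').card) := by
      have := Finset.card_union_le A A'
      exact pow_le_pow_of_le_one hq.le hq1 (by omega)
    have h3 : 4 * 1 * 1 * (A.card : ℝ) ≤ 4 * ((A.card + A'.card : ℕ) : ℝ) := by
      push_cast
      have : (0 : ℝ) ≤ A'.card := Nat.cast_nonneg _
      linarith
    exact div_le_div₀ (by positivity) h3 (by positivity) h2
  have hfar : ∀ (A A' : Finset (Site d)) (r : ℝ), (∀ x ∈ A, ∀ y ∈ A', r ≤ dist x y) →
      ∀ x ∈ A, ∀ y ∈ A', ∀ N : ℕ, YM.near N x y → ⌈r⌉₊ ≤ N := by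
    intro A A' r hr x hx y hy N hN
    exact Nat.ceil_le.2 ((hr x hx y hy).trans (near_dist hN))
  refine ⟨?_, ?_⟩
  · intro Λ A A' F F' r hF hF' hA hA' hF1 hF1' hr
    simp only [expect_eq]
    refine (YM.cov_m μ hadm Λ ⟨hF, 1, hF1⟩ ⟨hF', 1, hF1'⟩ ((obs_iff _ _).1 hA)
      ((obs_iff _ _).1 hA') (hfar A A' r hr) hF1 hF1').trans (hconst A A' r fun _ _ => ?_)
    exact Nat.le_ceil r
  · rintro ⟨b, hb⟩
    obtain ⟨ν, hν⟩ := YM.exists_isLim μ hadm hb
    refine ⟨ν, infVol_of μ hν, fun ν' hν' => unique_infVol μ hν' (infVol_of μ hν), ?_, ?_⟩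
    · intro A A' F F' r hF hF' hA hA' hF1 hF1' hr
      refine (YM.clust μ hadm hν hF hF' ((obs_iff _ _).1 hA)
        ((obs_iff _ _).1 hA') (hfar A A' r hr) hF1 hF1').trans (hconst A A' r fun _ _ => ?_)
      exact Nat.le_ceil r
    · intro k hk A F hF hA hF0 t
      have hsym : YM.Sym k φ := ⟨hk.time, hk.inv, hk.conj⟩
      have key := YM.gap μ hadm hν hsym hF ((obs_iff _ _).1 hA)
        (fun U U' hU => hF0 fun l hl => hU l hl) t
      have e : ∀ t : ℕ, cov ν k F t = YM.cvt ν k F t := by
        intro t
        unfold cov YM.cvt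
        simp only [shift_eq]
      rw [e, e]
      exact key

end

end Pool.Agent.Results.MP_7f377f_mp.MatchedPlanesMassGap
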