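import Mathlib
import Pool.Agent.TH618.YM.Cartan
import Pool.Agent.U322.WL.Lim
import Pool.Agent.U322.SF.Wick

/-!
# Lattice Yang-Mills theory: the correlations of Wilson loops of every size in a continuum limit

Wilson's lattice gauge theory on `ℤ^d`, `d ≥ 3`, with gauge group an arbitrary closed subgroup `G`
of `U(N)` at the inverse coupling `β`, in the infinite volume. Let the lattice spacing `h` tend to
zero and `β ≥ h ^ (-κ)` with an explicit `κ = κ(n, d)`. Take `n` rectangular Wilson loops
`W_1, ..., W_n` with `p_k × q_k` links, which tend after scaling by `h` to pairwise disjoint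
rectangles with the sides `P_k, Q_k ≥ 0` (points for loops of a bounded number of links, segments
for thin loops, rectangles for macroscopic loops). Then the centred correlations
`E ∏_k (β Re tr (1 - W_k) - mean)`, divided by `∏_k h ^ d (p_k q_k) ^ 2`, converge, for every choice
of the infinite volume limits, to those of the Wick squares `∑_a :Φ_a(k)^2: / 2` of the mean
curvatures of `dim G` independent free Maxwell fields in the limiting rectangles. For macroscopic
loops this is the convergence of the correlations of `h ^ (4 - d) β Re tr (1 - W_k)` to those of the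
Wick squares of the magnetic fluxes; in `d = 4` no power of `h` appears.
-/

open MeasureTheory Matrix Filter
open scoped Matrix.Norms.Frobenius Topology ContDiff

namespace Pool.Agent.Results.MP_7f377f_mp.WilsonLoops

set_option linter.unusedSectionVars false

noncomputable section

/-- Complex `N × N` matrices. -/
abbrev Mt (N : ℕ) := Matrix (Fin N) (Fin N) ℂ

/-- The unitary group `U(N)`. -/
abbrev UU (N : ℕ) := Matrix.unitaryGroup (Fin N) ℂ

/-- The matrix of an element of a subgroup of `U(N)`. -/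
def mt {N : ℕ} {G : Subgroup (UU N)} (g : G) : Mt N := ((g : UU N) : Mt N)

/-- The dimension of `G`: the dimension of the real space spanned by all matrices `Y` with
`exp (t Y) ∈ G` for all real `t`. -/
def dimG {N : ℕ} (G : Subgroup (UU N)) : ℕ :=
  Module.finrank ℝ (Submodule.span ℝ {Y : Mt N | ∀ t : ℝ, ∃ g : G, mt g = NormedSpace.exp (t • Y)})

/-- Links of the periodic lattice `(ℤ/l)^d`: base point and direction. -/
abbrev Link (d l : ℕ) := (Fin d → ZMod l) × Fin d

/-- Links of the lattice `ℤ^d`: base point and direction. -/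
abbrev LinkZ (d : ℕ) := (Fin d → ℤ) × Fin d

section

variable {N n d l : ℕ} {G : Subgroup (UU N)}

/-- The product of the link variables around the plaquette at `x` in the directions `i`, `j` of the
periodic lattice. -/
def plaq (U : Link d l → G) (x : Fin d → ZMod l) (i j : Fin d) : G :=
  U (x, i) * U (x + Pi.single i 1, j) * (U (x + Pi.single j 1, i))⁻¹ * (U (x, j))⁻¹

/-- The Wilson action `∑_p Re tr (1 - U_p)`, the sum over the plaquettes. -/
def action [NeZero l] (U : Link d l → G) : ℝ :=
  ∑ x : Fin d → ZMod l, ∑ i : Fin d, ∑ j : Fin d,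
    if i < j then (trace (1 - mt (plaq U x i j))).re else 0

/-- The periodic extension of a configuration. -/
def per (U : Link d l → G) : LinkZ d → G := fun e => U (fun i => (e.1 i : ZMod l), e.2)

/-- The expectation of `F` in the lattice Yang-Mills theory on `(ℤ/l)^d`, `μ` being the Haar
measure. -/
def expect (l : ℕ) [NeZero l] [MeasurableSpace G] (μ : Measure G) (β : ℝ)
    (F : (LinkZ d → G) → ℝ) : ℝ :=
  (∫ U : Link d l → G, F (per U) * Real.exp (-(β * action U)) ∂(Measure.pi fun _ => μ)) /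
    ∫ U : Link d l → G, Real.exp (-(β * action U)) ∂(Measure.pi fun _ => μ)

/-- `ν` is an infinite volume limit (weak limit along a subsequence) of the theories on the tori of
even side at inverse coupling `β`. -/
structure IsInfVol [MeasurableSpace G] (μ : Measure G) (β : ℝ)
    (ν : Measure (LinkZ d → G)) : Prop where
  prob : IsProbabilityMeasure ν
  lim : ∃ s : ℕ → ℕ, Tendsto s atTop atTop ∧ ∀ F : (LinkZ d → G) → ℝ, Continuous F →
    Tendsto (fun j => expect (2 * (s j + 1)) μ β F) atTop (𝓝 (∫ V, F V ∂ν))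

/-- The product of the `p` link variables of the line from `x` to `x + p e_i`. -/
def line (V : LinkZ d → G) (i : Fin d) (x : Fin d → ℤ) : ℕ → G
  | 0 => 1
  | p + 1 => line V i x p * V (x + Pi.single i (p : ℤ), i)

/-- The Wilson loop (as an element of `G`) around the rectangle with the corners `x`, `x + p e_i`,
`x + p e_i + q e_j`, `x + q e_j`. -/
def wilson (V : LinkZ d → G) (i j : Fin d) (x : Fin d → ℤ) (p q : ℕ) : G :=
  line V i x p * line V j (x + Pi.single i (p : ℤ)) q * (line V i (x + Pi.single j (q : ℤ)) p)⁻¹ *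
    (line V j x q)⁻¹

/-- `β Re tr (1 - W)` for the Wilson loop `W` around a rectangle. -/
def loopAction (β : ℝ) (i j : Fin d) (x : Fin d → ℤ) (p q : ℕ) (V : LinkZ d → G) : ℝ :=
  β * (trace (1 - mt (wilson V i j x p q))).re

/-- The expectation of the product of the centred variables `β Re tr (1 - W_k)`, `W_k` the Wilson
loop around the `p k × q k` rectangle at `z k` in the directions `I k`, `J k`. -/
def corr [MeasurableSpace G] (β : ℝ) (ν : Measure (LinkZ d → G)) (I J : Fin n → Fin d)
    (z : Fin n → Fin d → ℤ) (p q : Fin n → ℕ) : ℝ :=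
  ∫ V, ∏ k, (loopAction β (I k) (J k) (z k) (p k) (q k) V -
    ∫ V', loopAction β (I k) (J k) (z k) (p k) (q k) V' ∂ν) ∂ν

/-- `-∂_a ∂_b C (x)`, where `C (x) = Γ(d/2 - 1) / (4 π^(d/2)) |x|^(2-d)` is the Green function of
`-Δ` on `ℝ^d`. -/
def ddGreen (a b : Fin d) (x : EuclideanSpace ℝ (Fin d)) : ℝ :=
  Real.Gamma (d / 2) / (2 * Real.pi ^ ((d : ℝ) / 2)) *
    ((if a = b then 1 else 0) / ‖x‖ ^ d - d * x a * x b / ‖x‖ ^ (d + 2))

/-- The two point function `E F_ij (x) F_i'j' (0)` of the free Maxwell field on `ℝ^d`, `x ≠ 0`. -/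
def maxwell (i j i' j' : Fin d) (x : EuclideanSpace ℝ (Fin d)) : ℝ :=
  (if j = j' then ddGreen i i' x else 0) - (if j = i' then ddGreen i j' x else 0) -
    (if i = j' then ddGreen j i' x else 0) + (if i = i' then ddGreen j j' x else 0)

/-- The point `x + s P e_i + t Q e_j`. -/
def rectPt (i j : Fin d) (x : EuclideanSpace ℝ (Fin d)) (P Q s t : ℝ) :
    EuclideanSpace ℝ (Fin d) :=
  x + EuclideanSpace.single i (P * s) + EuclideanSpace.single j (Q * t)

/-- The closed rectangle (segment, point) with the corner `x` and the sides `P e_i`, `Q e_j`. -/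
def rect (i j : Fin d) (x : EuclideanSpace ℝ (Fin d)) (P Q : ℝ) : Set (EuclideanSpace ℝ (Fin d)) :=
  {y | ∃ s ∈ Set.Icc (0 : ℝ) 1, ∃ t ∈ Set.Icc (0 : ℝ) 1, y = rectPt i j x P Q s t}

/-- The covariance of the mean curvatures of the free Maxwell field in the `k`-th and in the `l`-th
rectangle. -/
def meanCov (I J : Fin n → Fin d) (x : Fin n → EuclideanSpace ℝ (Fin d)) (P Q : Fin n → ℝ)
    (k l : Fin n) : ℝ :=
  ∫ s in (0 : ℝ)..1, ∫ t in (0 : ℝ)..1, ∫ s' in (0 : ℝ)..1, ∫ t' in (0 : ℝ)..1,
    maxwell (I k) (J k) (I l) (J l)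
      (rectPt (I k) (J k) (x k) (P k) (Q k) s t - rectPt (I l) (J l) (x l) (P l) (Q l) s' t')

/-- The covariance of the fluxes of the free Maxwell field through the `k`-th and the `l`-th
rectangle. -/
def fluxCov (I J : Fin n → Fin d) (x : Fin n → EuclideanSpace ℝ (Fin d)) (P Q : Fin n → ℝ)
    (k l : Fin n) : ℝ :=
  P k * Q k * (P l * Q l) * meanCov I J x P Q k l

/-- The number of the cycles of a permutation, the fixed points included. -/
def cycles (σ : Equiv.Perm (Fin n)) : ℕ := Nat.card (Quotient (Equiv.Perm.SameCycle.setoid σ))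

/-- The exponent of the coupling. -/
def kappa (d n : ℕ) : ℕ := 4 * ((8 * d + 13) * (2 * n + 1)) * (n * d + 1)

end

open Pool.Agent.H906R3 Pool.Agent.W793 Pool.Agent.TH618 Pool.Agent.U322

variable {N n d l m : ℕ} {G : Subgroup (UU N)}

/-- A Haar probability measure is invariant under right multiplications. -/
lemma right_inv {H : Type*} [Group H] [TopologicalSpace H] [IsTopologicalGroup H]
    [CompactSpace H] [MeasurableSpace H] [BorelSpace H] (μ : Measure H)
    [IsProbabilityMeasure μ] [μ.IsHaarMeasure] : μ.IsMulRightInvariant := by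
  refine ⟨fun g => ?_⟩
  have h1 : IsProbabilityMeasure (Measure.map (fun x => x * g) μ) :=
    Measure.isProbabilityMeasure_map (measurable_mul_const g).aemeasurable
  exact Measure.isHaarMeasure_eq_of_isProbabilityMeasure _ _

/-- A Haar probability measure is invariant under the inversion. -/
lemma inv_inv' {H : Type*} [Group H] [TopologicalSpace H] [IsTopologicalGroup H]
    [CompactSpace H] [MeasurableSpace H] [BorelSpace H] (μ : Measure H)
    [IsProbabilityMeasure μ] [μ.IsHaarMeasure] : μ.IsInvInvariant := by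
  have hr := right_inv μ
  refine ⟨?_⟩
  have h1 : IsProbabilityMeasure μ.inv :=
    Measure.isProbabilityMeasure_map measurable_inv.aemeasurable
  have h2 : μ.inv.IsMulLeftInvariant := inferInstance
  have h3 : μ.inv.IsHaarMeasure :=
    Measure.isHaarMeasure_of_isCompact_nonempty_interior μ.inv Set.univ isCompact_univ
      (by simp) (by simp) (by simp)
  exact Measure.isHaarMeasure_eq_of_isProbabilityMeasure _ _

lemma dim_eq (B : YM.Frame G n) : dimG G = n := by
  have hli : LinearIndependent ℝ B.X := by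
    rw [Fintype.linearIndependent_iff]
    intro c hc a
    have h1 : (trace ((B.X a)ᴴ * ∑ b, c b • B.X b)).re = c a := by
      rw [Finset.mul_sum, trace_sum, Complex.re_sum]
      have h2 : ∀ b, (trace ((B.X a)ᴴ * (c b • B.X b))).re = if a = b then c b else 0 := by
        intro b
        rw [Matrix.mul_smul, trace_smul, Complex.smul_re, B.orth, smul_eq_mul, mul_ite, mul_one,
          mul_zero]
      simp only [h2]
      rw [Finset.sum_ite_eq Finset.univ a, if_pos (Finset.mem_univ a)]
    rw [hc, mul_zero, trace_zero] at h1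
    exact h1.symm
  have hspan : Submodule.span ℝ {Y : Mt N | ∀ t : ℝ, ∃ g : G, mt g = NormedSpace.exp (t • Y)} =
      Submodule.span ℝ (Set.range B.X) := by
    refine le_antisymm (Submodule.span_le.2 fun Y hY => B.full Y hY) (Submodule.span_le.2 ?_)
    rintro _ ⟨a, rfl⟩
    exact Submodule.subset_span fun t => ⟨B.ex a t, B.ex_eq a t⟩
  unfold dimG
  rw [hspan, finrank_span_eq_card hli, Fintype.card_fin]

section bridge

variable [CompactSpace G] [SecondCountableTopology G] [MeasurableSpace G] [BorelSpace G]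
  (μ : Measure G) [IsProbabilityMeasure μ] [μ.IsHaarMeasure] (B : YM.Frame G n)

lemma expect_eq [NeZero l] (β : ℝ) (F : (LinkZ d → G) → ℝ) : expect l μ β F =
    YM.EX μ B.toLD β (fun U : YM.Ed d l → G => F (YM.lf U)) := by
  unfold expect YM.EX YM.Zt
  simp only [one_mul]
  rfl

include B in
lemma action_cont [NeZero l] : Continuous (action : (Link d l → G) → ℝ) :=
  YM.act_cont (L := B.toLD)

include B in
/-- existence of infinite volume limits -/
lemma exists_infVol (β : ℝ) : ∃ ν : Measure (LinkZ d → G), IsInfVol μ β ν := by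
  have hP : ∀ j : ℕ, ∃ P : ProbabilityMeasure (LinkZ d → G),
      ∀ F : (LinkZ d → G) → ℝ, Continuous F →
        ∫ V, F V ∂(P : Measure (LinkZ d → G)) = expect (2 * (j + 1)) μ β F := by
    intro j
    have hper : Continuous (per : (Link d (2 * (j + 1)) → G) → LinkZ d → G) :=
      continuous_pi fun e => continuous_apply _
    have hexp : Continuous fun U : Link d (2 * (j + 1)) → G =>
        Real.exp (-(β * action U)) :=
      Real.continuous_exp.comp (continuous_const.mul (action_cont B)).neg
    have hint : Integrable (fun U : Link d (2 * (j + 1)) → G =>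
        Real.exp (-(β * action U))) (Measure.pi fun _ => μ) :=
      hexp.integrable_of_hasCompactSupport (HasCompactSupport.of_compactSpace _)
    have h1 := isProbabilityMeasure_tilted (f := fun U : Link d (2 * (j + 1)) → G =>
      -(β * action U)) hint
    refine ⟨⟨((Measure.pi fun _ => μ).tilted fun U : Link d (2 * (j + 1)) → G =>
      -(β * action U)).map per, Measure.isProbabilityMeasure_map hper.aemeasurable⟩,
      fun F hF => ?_⟩
    show ∫ V, F V ∂(((Measure.pi fun _ => μ).tilted fun U : Link d (2 * (j + 1)) → G =>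
      -(β * action U)).map per) = _
    rw [integral_map hper.aemeasurable hF.aestronglyMeasurable, integral_tilted]
    unfold expect
    rw [← integral_div]
    refine integral_congr_ae (Filter.Eventually.of_forall fun U => ?_)
    simp only [smul_eq_mul]
    ring
  choose P hP using hP
  obtain ⟨ν, s, hs, hlim⟩ := CompactSpace.tendsto_subseq P
  refine ⟨ν, ⟨inferInstance, s, hs.tendsto_atTop, fun F hF => ?_⟩⟩
  have h1 := (ProbabilityMeasure.tendsto_iff_forall_integral_tendsto.1 hlim)
    (BoundedContinuousFunction.mkOfCompact ⟨F, hF⟩)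
  simp only [Function.comp_apply, BoundedContinuousFunction.mkOfCompact_apply,
    ContinuousMap.coe_mk] at h1
  simpa only [hP _ F hF] using h1

end bridge

lemma green_eq (a b : Fin d) (x : EuclideanSpace ℝ (Fin d)) :
    SF.green a b (fun i => x i) = ddGreen a b x := by
  unfold SF.green ddGreen
  have h1 : Real.sqrt (∑ i, x i ^ 2) = ‖x‖ := by
    rw [EuclideanSpace.norm_eq]
    congr 1
    exact Finset.sum_congr rfl fun i _ => by rw [Real.norm_eq_abs, sq_abs]
  rw [h1]

lemma mx_eq (i j i' j' : Fin d) (x : EuclideanSpace ℝ (Fin d)) :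
    SF.mx i j i' j' (fun i => x i) = maxwell i j i' j' x := by
  unfold SF.mx maxwell
  simp only [green_eq]

lemma line_eq (V : LinkZ d → G) (i : Fin d) (x : Fin d → ℤ) (p : ℕ) :
    line V i x p = WL.ln V i x p := by
  induction p with
  | zero => rfl
  | succ p ih =>
    rw [WL.ln_succ', ← ih]
    rfl

lemma wilson_eq (V : LinkZ d → G) (i j : Fin d) (x : Fin d → ℤ) (p q : ℕ) :
    wilson V i j x p q = WL.WR V i j x p q := by
  unfold wilson WL.WR
  simp only [line_eq]
  rfl

lemma loopAction_eq (B : YM.Frame G n) (β : ℝ) (i j : Fin d) (x : Fin d → ℤ) (p q : ℕ)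
    (V : LinkZ d → G) : loopAction β i j x p q V = β * YM.we B.toLD (WL.WR V i j x p q) := by
  unfold loopAction
  rw [wilson_eq]
  rfl

lemma rectPt_eq (i j : Fin d) (x : EuclideanSpace ℝ (Fin d)) (P Q s t : ℝ) :
    (fun a => rectPt i j x P Q s t a) = WL.rpt i j (fun a => x a) P Q s t := by
  funext a
  unfold rectPt WL.rpt
  simp [Pi.single_apply]

lemma meanCov_eq (I J : Fin n → Fin d) (x : Fin n → EuclideanSpace ℝ (Fin d)) (P Q : Fin n → ℝ)
    (k l : Fin n) : WL.MXR I J (fun k i => x k i) P Q k l = meanCov I J x P Q k l := by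
  unfold WL.MXR meanCov
  refine intervalIntegral.integral_congr fun s _ => ?_
  refine intervalIntegral.integral_congr fun t _ => ?_
  refine intervalIntegral.integral_congr fun s' _ => ?_
  refine intervalIntegral.integral_congr fun t' _ => ?_
  simp only
  rw [← rectPt_eq, ← rectPt_eq, ← mx_eq]
  rfl

/-- The correlations of the Wilson loops around disjoint rectangles of every size. -/
theorem result {N d : ℕ} (hd : 3 ≤ d) (G : Subgroup (UU N)) (hG : IsClosed (G : Set (UU N)))
    [MeasurableSpace G] [BorelSpace G] (μ : Measure G) [IsProbabilityMeasure μ]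
    [μ.IsHaarMeasure] :
    (∀ β : ℝ, ∃ ν : Measure (LinkZ d → G), IsInfVol μ β ν) ∧
    ∀ (n : ℕ) (β h : ℕ → ℝ) (ν : ℕ → Measure (LinkZ d → G)) (I J : Fin n → Fin d)
      (x : Fin n → EuclideanSpace ℝ (Fin d)) (P Q : Fin n → ℝ) (z : ℕ → Fin n → Fin d → ℤ)
      (p q : ℕ → Fin n → ℕ),
      (∀ m, 0 < h m) → Tendsto h atTop (𝓝 0) →
      (∀ᶠ m in atTop, 1 ≤ β m * h m ^ kappa d n) →
      (∀ m, IsInfVol μ (β m) (ν m)) →
      (∀ k, I k ≠ J k) →
      (∀ k l, k ≠ l → Disjoint (rect (I k) (J k) (x k) (P k) (Q k))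
        (rect (I l) (J l) (x l) (P l) (Q l))) →
      (∀ m k, 0 < p m k ∧ 0 < q m k) →
      (∀ k i, Tendsto (fun m => h m * (z m k i : ℝ)) atTop (𝓝 (x k i))) →
      (∀ k, Tendsto (fun m => h m * (p m k : ℝ)) atTop (𝓝 (P k))) →
      (∀ k, Tendsto (fun m => h m * (q m k : ℝ)) atTop (𝓝 (Q k))) →
      Tendsto (fun m => (∏ k, (h m ^ d * ((p m k : ℝ) * q m k) ^ 2))⁻¹ *
        corr (β m) (ν m) I J (z m) (p m) (q m)) atTop
        (𝓝 (∑ σ ∈ Finset.univ.filter (fun σ : Equiv.Perm (Fin n) => ∀ k, σ k ≠ k),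
          ((dimG G : ℝ) / 2) ^ cycles σ * ∏ k, meanCov I J x P Q k (σ k))) ∧
      ((∀ k, 0 < P k ∧ 0 < Q k) →
        Tendsto (fun m => (h m ^ (4 - d : ℤ)) ^ n * corr (β m) (ν m) I J (z m) (p m) (q m)) atTop
        (𝓝 (∑ σ ∈ Finset.univ.filter (fun σ : Equiv.Perm (Fin n) => ∀ k, σ k ≠ k),
          ((dimG G : ℝ) / 2) ^ cycles σ * ∏ k, fluxCov I J x P Q k (σ k)))) := by
  have : CompactSpace G := by
    have h1 : IsCompact (G : Set (UU N)) := hG.isCompact
    exact isCompact_iff_compactSpace.1 h1
  have h00 : SecondCountableTopology (UU N) := TopologicalSpace.Subtype.secondCountableTopology _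
  have : SecondCountableTopology G := TopologicalSpace.Subtype.secondCountableTopology _
  have := right_inv μ
  have := inv_inv' μ
  obtain ⟨D, ⟨B⟩⟩ := YM.exists_frame hG
  obtain ⟨C0, hC0, hcar⟩ := YM.cartan' B hG
  refine ⟨exists_infVol μ B, ?_⟩
  intro n β h ν I J x P Q z p q hh hl hβ hν hIJ hdis hp hz hP hQ
  rw [dim_eq B]
  have hcar' : ∀ g : G, |YM.we B.toLD g - 1 / 2 * ∑ a, YM.fi B.toLD a g ^ 2| ≤
      (2 * C0) * YM.we B.toLD g ^ 2 := by
    intro g
    have h1 := hcar g
    have h2 := SF.fi_bessel (L := B.toLD) g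
    have h3 := YM.dv_sq (L := B.toLD) g
    have h4 : YM.dv B.toLD g ^ 4 = 4 * YM.we B.toLD g ^ 2 := by
      calc YM.dv B.toLD g ^ 4 = (YM.dv B.toLD g ^ 2) ^ 2 := by ring
        _ = _ := by rw [h3]; ring
    rw [h3, h4] at h1
    rw [abs_le]
    constructor
    · have : 0 ≤ 2 * C0 * YM.we B.toLD g ^ 2 := by positivity
      linarith
    · linarith
  obtain ⟨hsym, hlim⟩ := WL.lim_rect μ B.toLD hd n (c1 := 2 * C0) (by positivity) hcar'
    (β := β) (h := h) (ν := ν) (fun m => (hν m).prob) (fun m => by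
      obtain ⟨s, hs, h1⟩ := (hν m).lim
      refine ⟨s, hs, fun F hF => ?_⟩
      refine (h1 F hF).congr fun j => ?_
      rw [expect_eq μ B]) hh hl hβ (I := I) (J := J) hIJ
    (x := fun k i => x k i) (P := P) (Q := Q) (fun k l hkl s hs t ht s' hs' t' ht' h1 => by
      rw [← rectPt_eq, ← rectPt_eq] at h1
      have h2 : rectPt (I k) (J k) (x k) (P k) (Q k) s t =
          rectPt (I l) (J l) (x l) (P l) (Q l) s' t' := by
        ext a
        exact congrFun h1 a
      exact Set.disjoint_left.1 (hdis k l hkl) ⟨s, hs, t, ht, rfl⟩ ⟨s', hs', t', ht', h2⟩) (z := z) (p := p) (q := q) hp hz hP hQ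
  rw [SF.SS_wick hsym] at hlim
  simp only [meanCov_eq] at hlim
  have hlim1 : Tendsto (fun m => (∏ k, (h m ^ d * ((p m k : ℝ) * q m k) ^ 2))⁻¹ *
      corr (β m) (ν m) I J (z m) (p m) (q m)) atTop
      (𝓝 (∑ σ ∈ Finset.univ.filter (fun σ : Equiv.Perm (Fin n) => ∀ k, σ k ≠ k),
        ((D : ℝ) / 2) ^ cycles σ * ∏ k, meanCov I J x P Q k (σ k))) := by
    refine hlim.congr fun m => ?_
    unfold corr
    simp only [loopAction_eq B]
    have e1 : ∀ V : LinkZ d → G, (∏ k,
        (β m * YM.we B.toLD (WL.WR V (I k) (J k) (z m k) (p m k) (q m k)) /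
          ((p m k : ℝ) * q m k) ^ 2 -
        ∫ V', β m * YM.we B.toLD (WL.WR V' (I k) (J k) (z m k) (p m k) (q m k)) /
          ((p m k : ℝ) * q m k) ^ 2 ∂(ν m))) =
        (∏ k, (((p m k : ℝ) * q m k) ^ 2))⁻¹ * ∏ k,
        (β m * YM.we B.toLD (WL.WR V (I k) (J k) (z m k) (p m k) (q m k)) -
        ∫ V', β m * YM.we B.toLD (WL.WR V' (I k) (J k) (z m k) (p m k) (q m k)) ∂(ν m)) := by
      intro V
      rw [← Finset.prod_inv_distrib, ← Finset.prod_mul_distrib]
      refine Finset.prod_congr rfl fun k _ => ?_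
      rw [integral_div]
      ring
    simp only [e1]
    rw [integral_const_mul, Finset.prod_mul_distrib, Finset.prod_const, Finset.card_univ,
      Fintype.card_fin, mul_inv, ← pow_mul, mul_comm d n, mul_assoc]
  refine ⟨hlim1, fun hPQ => ?_⟩
  have hfac : Tendsto (fun m => ∏ k, ((h m * (p m k : ℝ)) * (h m * (q m k : ℝ))) ^ 2) atTop
      (𝓝 (∏ k, (P k * Q k) ^ 2)) :=
    tendsto_finsetProd _ fun k _ => ((hP k).mul (hQ k)).pow 2
  have h2 := hfac.mul hlim1
  have e2 : (∏ k, (P k * Q k) ^ 2) *
      ∑ σ ∈ Finset.univ.filter (fun σ : Equiv.Perm (Fin n) => ∀ k, σ k ≠ k),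
        ((D : ℝ) / 2) ^ cycles σ * ∏ k, meanCov I J x P Q k (σ k) =
      ∑ σ ∈ Finset.univ.filter (fun σ : Equiv.Perm (Fin n) => ∀ k, σ k ≠ k),
        ((D : ℝ) / 2) ^ cycles σ * ∏ k, fluxCov I J x P Q k (σ k) := by
    rw [Finset.mul_sum]
    refine Finset.sum_congr rfl fun σ _ => ?_
    have e3 : ∏ k, fluxCov I J x P Q k (σ k) =
        (∏ k, P k * Q k) * (∏ k, P (σ k) * Q (σ k)) * ∏ k, meanCov I J x P Q k (σ k) := by
      rw [← Finset.prod_mul_distrib, ← Finset.prod_mul_distrib]
      rfl
    rw [e3, Equiv.prod_comp σ (fun k => P k * Q k), Finset.prod_pow]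
    ring
  rw [e2] at h2
  refine h2.congr fun m => ?_
  have hhm := (hh m).ne'
  rw [← mul_assoc]
  congr 1
  rw [← Finset.prod_inv_distrib, ← Finset.prod_mul_distrib]
  have e4 : ∀ k, ((h m * (p m k : ℝ)) * (h m * (q m k : ℝ))) ^ 2 *
      (h m ^ d * ((p m k : ℝ) * q m k) ^ 2)⁻¹ = h m ^ (4 - d : ℤ) := by
    intro k
    have hp0 : (p m k : ℝ) ≠ 0 := by exact_mod_cast (hp m k).1.ne'
    have hq0 : (q m k : ℝ) ≠ 0 := by exact_mod_cast (hp m k).2.ne'
    rw [zpow_sub₀ hhm, zpow_natCast]
    have e5 : h m ^ (4 : ℤ) = h m ^ (4 : ℕ) := by norm_cast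
    rw [e5]
    field_simp
  rw [Finset.prod_congr rfl fun k _ => e4 k, Finset.prod_const, Finset.card_univ,
    Fintype.card_fin]

end

end Pool.Agent.Results.MP_7f377f_mp.WilsonLoops
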